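import Pool.Agent.N443.K54.Fin

/-!
# `π(K_5^4) ≤ 0.690621`

The notions are those of `Pool.Agent.H120R2.CliqueDefs`: `ex n k m = ex(n, K_m^k)` and
`turanDensity k m = π(K_m^k)`. The conjectured value is `11/16 = 0.6875`.

Outline. For five vertices `w` of a 4-graph let `t(w)` be the number of edges among them. A sum of
squares over the five-vertex types on seven vertices bounds, for a 4-graph without `K_5^4`, the
average of `z t(w) + y (55 - 16 R(t(w)))`, where `R = (0, 4, 2, 2, 4)` and `z, y > 0`; it is checked
by the kernel for each of the 122 classes of 4-graphs without `K_5^4` on six vertices and each of the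
`2^20` links of a seventh vertex. The average of `55 - 16 R(t(w))` is nonnegative for every such
4-graph: this is the theorem of the starting library on 4-graphs in which every five vertices span an
even number of edges, applied to the coboundaries of the links of the vertices.
-/

set_option autoImplicit false

open Filter Topology

namespace Pool.Agent.Results.MP_afdd4d_co.FiveCliqueSevenVertices

open Pool.Agent.H120R2.Clique

/-- The limit `π(K_5^4)` of `ex(n, K_5^4) / C(n,4)` exists and is at most `0.690621`. -/
theorem result :
    Tendsto (fun n : ℕ => (ex n 4 5 : ℝ) / (n.choose 4 : ℝ)) atTop (𝓝 (turanDensity 4 5)) ∧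
    turanDensity 4 5 ≤ 0.690621 :=
  ⟨ratio_tendsto 4 5, Pool.Agent.N443.K54.main⟩

end Pool.Agent.Results.MP_afdd4d_co.FiveCliqueSevenVertices
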