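import Pool.Agent.N443.PL.Coc2

/-! 4-graphs with few `K_5^4` whose pair-links contain few induced copies of `K_t ∪ tK_1` and of
`K_{t,t} ∪ tK_1` are close to cocycles. -/

set_option autoImplicit false

open Finset

namespace Pool.Agent.Results.MP_afdd4d_co.TamePairLinks

/-- number of five-element sets of vertices all of whose four-element subsets are members of `H` -/
def fiveCliques {n : ℕ} (H : Finset (Finset (Fin n))) : ℕ :=
  ((powersetCard 5 (univ : Finset (Fin n))).filter (fun S => powersetCard 4 S ⊆ H)).card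

/-- `C` is a cocycle: a family of four-element sets such that every five vertices contain an even number
of its members -/
def IsCocycle {n : ℕ} (C : Finset (Finset (Fin n))) : Prop :=
  C ⊆ powersetCard 4 univ ∧ ∀ S ∈ powersetCard 5 (univ : Finset (Fin n)), Even (C.filter (· ⊆ S)).card

/-- the vertices `φ j` form an induced copy of the graph `F` in the pair-link of `p` and `q`, that is, in
the graph on the vertices other than `p` and `q` in which `a` and `b` are adjacent when `{p, q, a, b}` is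
a member of `H` -/
def IsCopy {n : ℕ} (H : Finset (Finset (Fin n))) {J : Type} (F : SimpleGraph J) (p q : Fin n)
    (φ : J → Fin n) : Prop :=
  p ≠ q ∧ Function.Injective φ ∧ (∀ j, φ j ≠ p ∧ φ j ≠ q) ∧
    ∀ j k, j ≠ k → (F.Adj j k ↔ ({p, q, φ j, φ k} : Finset (Fin n)) ∈ H)

/-- number of (labelled) induced copies of the graph `F` in the pair-links of `H` -/
noncomputable def copies {n : ℕ} (H : Finset (Finset (Fin n))) {J : Type} (F : SimpleGraph J) : ℕ :=
  Nat.card {x : Fin n × Fin n × (J → Fin n) // IsCopy H F x.1 x.2.1 x.2.2}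

/-- `K_t ∪ tK_1`: a complete graph with `t` vertices and `t` isolated vertices -/
def cliqueAndPoints (t : ℕ) : SimpleGraph (Fin t ⊕ Fin t) :=
  (⊤ : SimpleGraph (Fin t)) ⊕g (⊥ : SimpleGraph (Fin t))

/-- `K_{t,t} ∪ tK_1`: a complete bipartite graph with parts of size `t` and `t` isolated vertices -/
def bicliqueAndPoints (t : ℕ) : SimpleGraph ((Fin t ⊕ Fin t) ⊕ Fin t) :=
  (completeBipartiteGraph (Fin t) (Fin t)) ⊕g (⊥ : SimpleGraph (Fin t))

open Pool.Agent.N443.PL
open Pool.Agent.N443.PK (fw close)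
open Pool.Agent.N443.PG (ins ins_eq)

theorem fw_le {n : ℕ} (H : Finset (Finset (Fin n))) (hH : H ⊆ powersetCard 4 univ) :
    fw H 5 ≤ fiveCliques H := by
  unfold fw fiveCliques
  refine card_le_card fun S hS => ?_
  obtain ⟨h1, h2⟩ := mem_filter.mp hS
  refine mem_filter.mpr ⟨h1, ?_⟩
  have h3 : H.filter (· ⊆ S) ⊆ powersetCard 4 S := by
    intro Q hQ
    rw [mem_filter] at hQ
    exact mem_powersetCard.2 ⟨hQ.2, (mem_powersetCard.1 (hH hQ.1)).2⟩
  have h4 : H.filter (· ⊆ S) = powersetCard 4 S := by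
    refine eq_of_subset_of_card_le h3 ?_
    rw [card_powersetCard, (mem_powersetCard.mp h1).2]
    exact h2.ge
  rw [← h4]
  exact filter_subset _ _

theorem OC_le {n : ℕ} (H : Finset (Finset (Fin n))) {J : Type} [Fintype J] (F : SimpleGraph J) :
    (OC H F).card ≤ copies H F := by
  classical
  unfold copies
  rw [Nat.card_eq_fintype_card, ← Fintype.card_coe (OC H F)]
  refine Fintype.card_le_of_injective (fun w : {w // w ∈ OC H F} =>
    (⟨(w.1 (Sum.inl 0), w.1 (Sum.inl 1), fun j => w.1 (Sum.inr j)), ?_⟩ :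
      {x : Fin n × Fin n × (J → Fin n) // IsCopy H F x.1 x.2.1 x.2.2})) ?_
  · obtain ⟨hi, hF⟩ := mem_OC.mp w.2
    refine ⟨fun h => ?_, fun j k h => Sum.inr_injective (hi h), fun j => ⟨fun h => ?_, fun h => ?_⟩, hF⟩
    · exact absurd (hi h) (by simp)
    · exact absurd (hi h) (by simp)
    · exact absurd (hi h) (by simp)
  · rintro ⟨w, hw⟩ ⟨w', hw'⟩ h
    have h0 := congrArg Subtype.val h
    have h1 := (Prod.mk.inj h0).1
    have h2 := (Prod.mk.inj (Prod.mk.inj h0).2).1
    have h3 := (Prod.mk.inj (Prod.mk.inj h0).2).2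
    refine Subtype.ext (funext ?_)
    rintro (i | j)
    · fin_cases i
      · exact h1
      · exact h2
    · exact congrFun h3 j

/-- For every `t` and `ε > 0` there are `δ > 0` and `n₀` such that every 4-graph on `n ≥ n₀` vertices with
at most `δ n^5` copies of `K_5^4` and at most `δ n^(2t+2)` and `δ n^(3t+2)` induced copies of `K_t ∪ tK_1`
and of `K_{t,t} ∪ tK_1` in its pair-links differs from a cocycle in at most `ε n^4` quadruples. -/
theorem result (t : ℕ) (ε : ℝ) (hε : 0 < ε) : ∃ δ : ℝ, 0 < δ ∧ ∃ n0 : ℕ, ∀ n : ℕ, n0 ≤ n →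
    ∀ H : Finset (Finset (Fin n)), H ⊆ powersetCard 4 univ →
      (fiveCliques H : ℝ) ≤ δ * (n : ℝ) ^ 5 →
      (copies H (cliqueAndPoints t) : ℝ) ≤ δ * (n : ℝ) ^ (2 * t + 2) →
      (copies H (bicliqueAndPoints t) : ℝ) ≤ δ * (n : ℝ) ^ (3 * t + 2) →
      ∃ C : Finset (Finset (Fin n)), IsCocycle C ∧
        ((symmDiff H C).card : ℝ) ≤ ε * (n : ℝ) ^ 4 := by
  obtain ⟨δ, hδ, n0, h0⟩ := close t ε hε
  refine ⟨δ, hδ, n0, fun n hn H hH h5 h1 h2 => ?_⟩
  have e1 : 2 * t + 2 = 2 + (t + t) := by omega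
  have e2 : 3 * t + 2 = 2 + (t + t + t) := by omega
  rw [e1] at h1
  rw [e2] at h2
  obtain ⟨C, hC, hE, hd⟩ := h0 n hn H hH
    (le_trans (by exact_mod_cast fw_le H hH) h5)
    (le_trans (by exact_mod_cast OC_le H (G1 t)) h1)
    (le_trans (by exact_mod_cast OC_le H (G2 t)) h2)
  exact ⟨C, ⟨hC, hE⟩, hd⟩

end Pool.Agent.Results.MP_afdd4d_co.TamePairLinks
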